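import Pool.Agent.Lib.MP_7ed551_gt.Cy.Iface

/-! The statements exchanged between the two halves of the foliation block. -/

open scoped ContDiff Topology
open Set Filter Metric

noncomputable section

namespace Pool.Agent.Lib.MP_7ed551_gt.Cy

open Pool.Agent.Lib.MP_ccffa6_gt (Form1 dF pb px py JHol dens)

/-- A holomorphic plane asymptotic to `ζ ↦ (ζ, c)`. -/
structure Leaf (J : E → E →L[ℝ] E) (u : ℂ → E) (c : ℂ) : Prop where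
  sm : ContDiff ℝ ∞ u
  hol : JHol J u univ
  lim : Tendsto (fun ζ => u ζ - (ζ, c)) (cocompact ℂ) (𝓝 0)

/-- The local similarity principle, with one exceptional point. -/
def SimStmt : Prop :=
  ∀ (D : ℂ → ℂ) (U : Set ℂ) (c : ℂ) (C R : ℝ), IsOpen U → closedBall c R ⊆ U → ContinuousOn D U →
    ContDiffOn ℝ ∞ D (U \ {c}) → (∀ ζ ∈ U \ {c}, ‖dbar D ζ‖ ≤ C * ‖D ζ‖) →
    ∃ s h : ℂ → ℂ, Continuous s ∧ DifferentiableOn ℂ h (ball c R) ∧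
      ∀ ζ ∈ ball c R, D ζ = h ζ * Complex.exp (s ζ)

/-- The global similarity principle. -/
def SimGStmt : Prop :=
  ∀ (D : ℂ → ℂ) (C R : ℝ), ContDiff ℝ ∞ D → (∀ ζ, ‖dbar D ζ‖ ≤ C * ‖D ζ‖) →
    (∀ ζ, R ≤ ‖ζ‖ → dbar D ζ = 0) →
    ∃ s h : ℂ → ℂ, Continuous s ∧ Tendsto s (cocompact ℂ) (𝓝 0) ∧ Differentiable ℂ h ∧
      ∀ ζ, D ζ = h ζ * Complex.exp (s ζ)

/-- The foliation for structures close to the standard one. -/
def SmallStmt : Prop :=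
  ∀ (J : ℝ × E → E →L[ℝ] E) (K : Set E), ContDiff ℝ ∞ J → (∀ p v, J p (J p v) = -v) →
    IsCompact K → (∀ p : ℝ × E, p.2 ∉ K → J p = J0) → (∀ x, J (0, x) = J0) →
    ∀ᶠ t in 𝓝 (0 : ℝ), ∃ Ψ P : E → E, Fol (fun x => J (t, x)) Ψ P

/-- A limit of embedded leaves is immersed. -/
def LimStmt : Prop :=
  ∀ (J : ℝ × E → E →L[ℝ] E) (t : ℕ → ℝ) (t₀ : ℝ) (u : ℕ → ℂ → E) (u₀ : ℂ → E) (c : ℂ),
    ContDiff ℝ ∞ J → (∀ p v, J p (J p v) = -v) →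
    (∃ K : Set E, IsCompact K ∧ ∀ p : ℝ × E, p.2 ∉ K → J p = J0) → Tendsto t atTop (𝓝 t₀) →
    (∀ n, ContDiff ℝ ∞ (u n) ∧ JHol (fun x => J (t n, x)) (u n) univ ∧ Function.Injective (u n) ∧
      ∀ ζ, px (u n) ζ ≠ 0) →
    Leaf (fun x => J (t₀, x)) u₀ c → TendstoLocallyUniformly u u₀ atTop →
    TendstoLocallyUniformly (fun n => fderiv ℝ (u n)) (fderiv ℝ u₀) atTop →
    ∀ ζ, px u₀ ζ ≠ 0

end Pool.Agent.Lib.MP_7ed551_gt.Cy
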