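import Pool.Agent.Lib.MP_7ed551_gt.Defs
import Pool.Agent.Lib.MP_ccffa6_gt.T.Defs
import Pool.Agent.Lib.MP_ccffa6_gt.K.Forms0

/-!
Monotone tori in a thin cylinder: definitions shared by all blocks.
The first coordinate of `ℂ × ℂ` is the fibre coordinate, the second one is the base coordinate.
-/

open scoped ContDiff
open Set Real

noncomputable section

namespace Pool.Agent.Lib.MP_7ed551_gt.Cy

open Pool.Agent.Lib.MP_ccffa6_gt (Form1 dF pb px py JHol dens dF_apply)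

/-- The ambient space. -/
abbrev E : Type := ℂ × ℂ

/-- `w1` as a continuous bilinear map. -/
def w1L : ℂ →L[ℝ] ℂ →L[ℝ] ℝ :=
  Complex.reCLM.smulRight Complex.imCLM - Complex.imCLM.smulRight Complex.reCLM

/-- `om` as a continuous bilinear map. -/
def omL : E →L[ℝ] E →L[ℝ] ℝ :=
  w1L.bilinearComp (ContinuousLinearMap.fst ℝ ℂ ℂ) (ContinuousLinearMap.fst ℝ ℂ ℂ) +
    w1L.bilinearComp (ContinuousLinearMap.snd ℝ ℂ ℂ) (ContinuousLinearMap.snd ℝ ℂ ℂ)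

theorem omL_apply (u v : E) : omL u v = om u v := by
  simp [omL, w1L, om, w1]

/-- The Liouville form. -/
def lam0 : Form1 E := fun x => (1 / 2 : ℝ) • omL x

theorem lam0_apply (x v : E) : lam0 x v = om x v / 2 := by
  simp only [lam0, smul_apply, omL_apply, smul_eq_mul]
  ring

theorem contDiff_lam0 : ContDiff ℝ ∞ lam0 := (omL.contDiff).const_smul _

theorem dF_lam0 (x u v : E) : dF lam0 x u v = om u v := by
  have h : fderiv ℝ lam0 x = (1 / 2 : ℝ) • omL := (((1 / 2 : ℝ) • omL).hasFDerivAt (x := x)).fderiv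
  rw [dF_apply, h]
  simp only [smul_apply, omL_apply, smul_eq_mul, om, w1]
  ring

/-- The standard complex structure. -/
def J0 : E →L[ℝ] E := (Complex.I • ContinuousLinearMap.id ℂ E).restrictScalars ℝ

theorem J0_apply (v : E) : J0 v = Complex.I • v := rfl

/-- `∂/∂z̄`. -/
def dbar (s : ℂ → ℂ) (z : ℂ) : ℂ := (px s z + Complex.I * py s z) / 2

/-- An embedded Lagrangian torus. -/
structure Tor (f : ℝ × ℝ → E) : Prop where
  sm : ContDiff ℝ ∞ f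
  p1 : ∀ x, f (x + (2 * π, 0)) = f x
  p2 : ∀ x, f (x + (0, 2 * π)) = f x
  inj : ∀ x y, f x = f y → ∃ m n : ℤ, y = x + (2 * π * m, 2 * π * n)
  imm : ∀ x, Function.Injective (fderiv ℝ f x)
  lag : IsLag f

/-- A compactly supported diffeomorphism `Φ` with inverse `Ψ`. -/
structure Dif {V : Type} [NormedAddCommGroup V] [NormedSpace ℝ V] (Φ Ψ : V → V) : Prop where
  sm : ContDiff ℝ ∞ Φ
  sm' : ContDiff ℝ ∞ Ψ
  left : ∀ x, Ψ (Φ x) = x
  right : ∀ x, Φ (Ψ x) = x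
  far : ∃ R : ℝ, ∀ x, R ≤ ‖x‖ → Φ x = x

/-- The product torus. -/
def Ls (r : ℝ) : Set E := {y | ‖y.1‖ = r ∧ ‖y.2‖ = r}

/-- Its parametrisation, `x.1` is the base angle and `x.2` the fibre angle. -/
def std (r : ℝ) (x : ℝ × ℝ) : E :=
  (r * Complex.exp (x.2 * Complex.I), r * Complex.exp (x.1 * Complex.I))

/-- The product torus is Lagrangian for `dΛ`. -/
def LagS (r : ℝ) (Λ : Form1 E) : Prop :=
  ∀ y ∈ Ls r, dF Λ y (0, Complex.I * y.2) (Complex.I * y.1, 0) = 0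

/-- The period along the base circle. -/
def perB (r : ℝ) (Λ : Form1 E) : ℝ :=
  ∫ θ in (0 : ℝ)..2 * π, Λ (std r (θ, 0)) (0, Complex.I * (std r (θ, 0)).2)

/-- The period along the fibre circle. -/
def perF (r : ℝ) (Λ : Form1 E) : ℝ :=
  ∫ φ in (0 : ℝ)..2 * π, Λ (std r (0, φ)) (Complex.I * (std r (0, φ)).1, 0)

/-- The fibres of the second projection are symplectic. -/
def FibPos (Λ : Form1 E) : Prop := ∀ x, 0 < dF Λ x (1, 0) (Complex.I, 0)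

/-- A small compactly supported correction of the Liouville form. -/
structure Small (β : Form1 E) : Prop where
  sm : ContDiff ℝ ∞ β
  cpt : HasCompactSupport β
  le : ∀ x u v, |dF β x u v| ≤ ‖u‖ * ‖v‖ / 10

/-- A path of almost complex structures tamed by `dΛ`, standard at infinity and at `t = 0`. -/
structure Path (Λ : Form1 E) (J : ℝ × E → E →L[ℝ] E) (K : Set E) : Prop where
  smΛ : ContDiff ℝ ∞ Λ
  smJ : ContDiff ℝ ∞ J
  sq : ∀ p v, J p (J p v) = -v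
  tame : ∀ p v, v ≠ 0 → 0 < dF Λ p.2 v (J p v)
  cpt : IsCompact K
  farΛ : ∀ x, x ∉ K → Λ x = lam0 x
  farJ : ∀ p : ℝ × E, p.2 ∉ K → J p = J0
  zero : ∀ x, J (0, x) = J0

/-- One almost complex structure tamed by `dΛ`, standard off a compact part `K`. -/
structure Amb (Λ : Form1 E) (J : E → E →L[ℝ] E) (K : Set E) : Prop where
  smΛ : ContDiff ℝ ∞ Λ
  smJ : ContDiff ℝ ∞ J
  sq : ∀ x v, J x (J x v) = -v
  tame : ∀ x v, v ≠ 0 → 0 < dF Λ x v (J x v)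
  cpt : IsCompact K
  farΛ : ∀ x, x ∉ K → Λ x = lam0 x
  farJ : ∀ x, x ∉ K → J x = J0

theorem Path.amb {Λ : Form1 E} {J : ℝ × E → E →L[ℝ] E} {K : Set E} (h : Path Λ J K) (t : ℝ) :
    Amb Λ (fun x => J (t, x)) K :=
  ⟨h.smΛ, h.smJ.comp (contDiff_const.prodMk contDiff_id), fun x => h.sq (t, x),
    fun x => h.tame (t, x), h.cpt, h.farΛ, fun x => h.farJ (t, x)⟩

/-- A foliation by holomorphic planes `ζ ↦ Ψ (ζ, c)`, with inverse map `P`. -/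
structure Fol (J : E → E →L[ℝ] E) (Ψ P : E → E) : Prop where
  sm : ContDiff ℝ ∞ Ψ
  sm' : ContDiff ℝ ∞ P
  left : ∀ x, P (Ψ x) = x
  right : ∀ x, Ψ (P x) = x
  hol : ∀ c, JHol J (fun ζ => Ψ (ζ, c)) univ
  far : ∃ R : ℝ, ∀ x : E, R ≤ ‖x.2‖ → Ψ x = x
  dec : ∃ C : ℝ, ∀ x : E, 1 ≤ ‖x.1‖ →
    ‖Ψ x - x‖ ≤ C / ‖x.1‖ ∧ ‖fderiv ℝ Ψ x - ContinuousLinearMap.id ℝ E‖ ≤ C / ‖x.1‖

/-- A strip. -/
def Strip (N : ℝ) : Set ℂ := {z | |z.re| < N}

/-- The product of two strips. -/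
def Box (N : ℝ) : Set E := {Z | |Z.1.re| < N ∧ |Z.2.re| < N}

/-- A holomorphic embedding of `Box N` modulo the periods. -/
structure Cht (J : E → E →L[ℝ] E) (Θ : E → E) (N : ℝ) : Prop where
  sm : ContDiff ℝ ∞ Θ
  per1 : ∀ Z, Θ (Z + (2 * π * Complex.I, 0)) = Θ Z
  per2 : ∀ Z, Θ (Z + (0, 2 * π * Complex.I)) = Θ Z
  inj : ∀ Z ∈ Box N, ∀ Z' ∈ Box N, Θ Z = Θ Z' →
    ∃ m n : ℤ, Z' = Z + (2 * π * Complex.I * m, 2 * π * Complex.I * n)
  imm : ∀ Z ∈ Box N, Function.Injective (fderiv ℝ Θ Z)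
  hol : ∀ Z ∈ Box N, ∀ v, J (Θ Z) (fderiv ℝ Θ Z v) = fderiv ℝ Θ Z (Complex.I • v)

/-- In the chart `Λ` is the canonical form plus a closed form with periods `a k`. -/
def Can (Λ : Form1 E) (Θ : E → E) (N c a : ℝ) (k : ℤ × ℤ) : Prop :=
  ∃ g : E → ℝ, ContDiff ℝ ∞ g ∧ (∀ Z, g (Z + (2 * π * Complex.I, 0)) = g Z) ∧
    (∀ Z, g (Z + (0, 2 * π * Complex.I)) = g Z) ∧ ∀ Z ∈ Box N, ∀ v : E,
      pb Θ Λ Z v = (c * Z.1.re + a / (2 * π) * k.1) * v.1.im +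
        (c * Z.2.re + a / (2 * π) * k.2) * v.2.im + fderiv ℝ g Z v

/-- Graphs over the first coordinate with slope at most `κ` are symplectic. -/
def Slope (Λ : Form1 E) (Θ : E → E) (N κ : ℝ) : Prop :=
  ∀ Z ∈ Box N, ∀ a b : ℂ, ‖a‖ ≤ κ → ‖b‖ ≤ κ → 0 < dF (pb Θ Λ) Z (1, a) (Complex.I, b)

/-- An integral linear change of the chart. -/
def lin (p q r s : ℤ) (Z : E) : E := (p * Z.1 + q * Z.2, r * Z.1 + s * Z.2)

/-- The leaves are graphs `W = h (Z, e)` in the chart. -/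
structure Gr (Θ P : E → E) (h : E → ℂ) (N δ : ℝ) : Prop where
  sm : ContDiffOn ℝ ∞ h (Box N)
  hol : ∀ e ∈ Strip N, DifferentiableOn ℂ (fun Z => h (Z, e)) (Strip N)
  zero : ∀ e ∈ Strip N, h (0, e) = e
  per1 : ∀ x ∈ Box N, h (x + (2 * π * Complex.I, 0)) = h x
  per2 : ∀ x ∈ Box N, h (x + (0, 2 * π * Complex.I)) = h x + 2 * π * Complex.I
  small : ∀ x ∈ Box N, ‖h x - x.2‖ ≤ δ
  leaf : ∀ x ∈ Box N, (P (Θ (x.1, h x))).2 = (P (Θ (0, x.2))).2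
  inj : ∀ e ∈ Strip N, ∀ e' ∈ Strip N, (P (Θ (0, e))).2 = (P (Θ (0, e'))).2 →
    ∃ n : ℤ, e' = e + 2 * π * Complex.I * n
  imm : ∀ e ∈ Strip N, Function.Injective (fderiv ℝ (fun e => (P (Θ (0, e))).2) e)

/-- A reparametrisation of the torus. -/
structure Rep (κ : ℝ × ℝ → ℝ × ℝ) : Prop where
  sm : ContDiff ℝ ∞ κ
  p1 : ∃ m n : ℤ, ∀ x, κ (x + (2 * π, 0)) = κ x + (2 * π * m, 2 * π * n)
  p2 : ∃ m n : ℤ, ∀ x, κ (x + (0, 2 * π)) = κ x + (2 * π * m, 2 * π * n)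
  surj : Function.Surjective κ

end Pool.Agent.Lib.MP_7ed551_gt.Cy
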