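import Pool.Agent.Lib.MP_7ed551_gt.Cy.Defs

/-! Monotone tori in a thin cylinder: the statements of the blocks and the assembly. -/

open scoped ContDiff
open Set Real

noncomputable section

namespace Pool.Agent.Lib.MP_7ed551_gt.Cy

open Pool.Agent.Lib.MP_ccffa6_gt (Form1 dF pb px py JHol dens)

/-- W: the chart and the path of almost complex structures. -/
def ChartStmt : Prop :=
  ∀ (f : ℝ × ℝ → E) (lam R0 : ℝ), Tor f → IsMonotone f lam → (∀ x, ‖(f x).1‖ < R0) →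
    ∃ (β : Form1 E) (e : ℝ) (k : ℤ × ℤ), Small β ∧ 0 < e ∧
      (∀ x, β (f x) = 0 ∧ dF β (f x) = 0) ∧ ∀ N : ℝ, 0 < N →
      ∃ (J : ℝ × E → E →L[ℝ] E) (K : Set E) (Θ : E → E),
        Path (fun x => lam0 x + β x) J K ∧ (∀ x ∈ K, ‖x.1‖ < R0) ∧
        Cht (fun x => J (1, x)) Θ N ∧ Can (fun x => lam0 x + β x) Θ N (e / N) (2 * lam) k ∧
        (∀ Z ∈ Box N, ‖(Θ Z).1‖ < R0) ∧
        ∀ x : ℝ × ℝ, Θ (x.1 * Complex.I, x.2 * Complex.I) = f x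

/-- F1: the foliation. -/
def FolStmt : Prop :=
  ∀ (Λ : Form1 E) (J : ℝ × E → E →L[ℝ] E) (K : Set E), Path Λ J K →
    ∃ Ψ P : E → E, Fol (fun x => J (1, x)) Ψ P

/-- F2: the leaves are graphs in a long neck. -/
def NeckStmt : Prop :=
  ∀ (a e R0 : ℝ) (k : ℤ × ℤ), 0 < a → 0 < e → 0 < R0 → π * R0 ^ 2 < 2 * a → ∃ κ : ℝ, 0 < κ ∧
    ∀ N1 δ : ℝ, 0 < N1 → 0 < δ → ∃ N : ℝ, 0 < N ∧
      ∀ (Λ : Form1 E) (J : E → E →L[ℝ] E) (K : Set E) (Θ : E → E) (Ψ P : E → E),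
        Amb Λ J K → (∀ x ∈ K, ‖x.1‖ < R0) → Cht J Θ N → Can Λ Θ N (e / N) a k →
        (∀ Z ∈ Box N, ‖(Θ Z).1‖ < R0) → Fol J Ψ P →
        ∃ (p q r s : ℤ) (h : E → ℂ), p * s - q * r = 1 ∧
          Cht J (fun Z => Θ (lin p q r s Z)) (N1 + 1) ∧
          Slope Λ (fun Z => Θ (lin p q r s Z)) (N1 + 1) κ ∧
          Gr (fun Z => Θ (lin p q r s Z)) P h N1 δ

/-- G: the trivialisation. -/
def TrivStmt : Prop :=
  ∀ κ : ℝ, 0 < κ → ∃ N δ : ℝ, 0 < N ∧ 0 < δ ∧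
    ∀ (Λ : Form1 E) (J : E → E →L[ℝ] E) (K : Set E) (Θ Ψ P : E → E) (h : E → ℂ) (r : ℝ),
      0 < r → Amb Λ J K → Fol J Ψ P → Cht J Θ (N + 1) → Slope Λ Θ (N + 1) κ → Gr Θ P h N δ →
      ∃ (Φ Φ' : E → E) (k : ℝ × ℝ → ℝ × ℝ), Dif Φ Φ' ∧ FibPos (pb Φ Λ) ∧ Rep k ∧
        ∀ x, Φ (std r x) = Θ ((k x).1 * Complex.I, (k x).2 * Complex.I)

/-- MAS: the periods in a trivialisation. -/
def MasStmt : Prop :=
  ∀ (f : ℝ × ℝ → E) (lam r : ℝ) (Φ Φ' : E → E) (β : Form1 E) (k : ℝ × ℝ → ℝ × ℝ),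
    Tor f → IsMonotone f lam → 0 < r → Dif Φ Φ' → Small β → (∀ x, dF β (f x) = 0) →
    FibPos (pb Φ fun x => lam0 x + β x) → Rep k → (∀ x, Φ (std r x) = f (k x)) →
    LagS r (pb Φ lam0) ∧ perB r (pb Φ lam0) = 2 * lam ∧ perF r (pb Φ lam0) = 2 * lam

/-- F3: the dichotomy. -/
def DichStmt : Prop :=
  ∀ (A : E → ℂ) (r ε : ℝ), 0 < r → 0 < ε → ContDiff ℝ ∞ A → HasCompactSupport A →
    (∃ ρ < r, ∀ x : E, ρ ≤ ‖x.2‖ → A x = 0) →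
    ∃ s : ℂ → ℂ, ContDiff ℝ ∞ s ∧ (∀ z, ‖z‖ ≤ r → ‖dbar s z - A (s z, z)‖ ≤ ε) ∧
      ((∀ z, ‖z‖ = r → ‖s z‖ < r) ∨
        ((∀ z, ‖z‖ = r → r < ‖s z‖) ∧ ∃ (m : ℕ) (g : ℝ → ℂ), 1 ≤ m ∧ Continuous g ∧
          (∀ θ, g (θ + 2 * π) = g θ) ∧
          ∀ θ : ℝ, s (r * Complex.exp (θ * Complex.I)) = Complex.exp (g θ - m * θ * Complex.I)))

/-- F4: fibred tori. -/
def FibStmt : Prop :=
  ∀ (lam r : ℝ) (Φ Φ' : E → E) (β : Form1 E), 0 < r → π * r ^ 2 = 2 * lam → Dif Φ Φ' →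
    Small β → (∀ y ∈ Ls r, β (Φ y) = 0 ∧ dF β (Φ y) = 0) → FibPos (pb Φ fun x => lam0 x + β x) →
    LagS r (pb Φ lam0) → perB r (pb Φ lam0) = 2 * lam → perF r (pb Φ lam0) = 2 * lam →
    HamIso (Φ '' Ls r) (clifford lam) ∨ HamIso (Φ '' Ls r) (chekanov lam)

theorem range_std {r : ℝ} (hr : 0 < r) : range (std r) = Ls r := by
  ext y
  constructor
  · rintro ⟨x, rfl⟩
    constructor <;> simp [std, Complex.norm_exp_ofReal_mul_I, abs_of_pos hr]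
  · rintro ⟨h1, h2⟩
    refine ⟨(Complex.arg y.2, Complex.arg y.1), Prod.ext ?_ ?_⟩
    · rw [← h1]
      exact Complex.norm_mul_exp_arg_mul_I _
    · rw [← h2]
      exact Complex.norm_mul_exp_arg_mul_I _

theorem Rep.lin {k : ℝ × ℝ → ℝ × ℝ} (h : Rep k) {p q r s : ℤ} (hd : p * s - q * r = 1) :
    Rep fun x => (p * (k x).1 + q * (k x).2, r * (k x).1 + s * (k x).2) := by
  have hd' : (p : ℝ) * s - q * r = 1 := by exact_mod_cast hd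
  have h1 := h.sm
  refine ⟨by fun_prop, ?_, ?_, fun y => ?_⟩
  · obtain ⟨m, n, e⟩ := h.p1
    refine ⟨p * m + q * n, r * m + s * n, fun x => ?_⟩
    rw [e]
    refine Prod.ext ?_ ?_ <;> simp only [Prod.fst_add, Prod.snd_add] <;> push_cast <;> ring
  · obtain ⟨m, n, e⟩ := h.p2
    refine ⟨p * m + q * n, r * m + s * n, fun x => ?_⟩
    rw [e]
    refine Prod.ext ?_ ?_ <;> simp only [Prod.fst_add, Prod.snd_add] <;> push_cast <;> ring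
  · obtain ⟨x, hx⟩ := h.surj (s * y.1 - q * y.2, p * y.2 - r * y.1)
    refine ⟨x, Prod.ext ?_ ?_⟩ <;> simp only [hx]
    · linear_combination y.1 * hd'
    · linear_combination y.2 * hd'

theorem Tor.bound {f : ℝ × ℝ → E} (h : Tor f) {c : ℝ} (hc : ∀ x, π * ‖(f x).1‖ ^ 2 < c) :
    ∃ R0 : ℝ, 0 < R0 ∧ π * R0 ^ 2 < c ∧ ∀ x, ‖(f x).1‖ < R0 := by
  have hp : 0 < 2 * π := by positivity
  obtain ⟨x₀, -, hx⟩ := (isCompact_Icc.prod isCompact_Icc : IsCompact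
    (Icc (0 : ℝ) (2 * π) ×ˢ Icc (0 : ℝ) (2 * π))).exists_isMaxOn
    ⟨(0, 0), ⟨le_rfl, hp.le⟩, le_rfl, hp.le⟩ (f := fun x => ‖(f x).1‖)
    (h.sm.continuous.fst.norm.continuousOn)
  have h1 : ∀ x, ‖(f x).1‖ ≤ ‖(f x₀).1‖ := fun x => by
    have a1 : Function.Periodic (fun t => f (t, x.2)) (2 * π) := fun t => by
      simpa using h.p1 (t, x.2)
    obtain ⟨t, ht, e1⟩ := a1.exists_mem_Ico₀ hp x.1
    have a2 : Function.Periodic (fun u => f (t, u)) (2 * π) := fun u => by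
      simpa using h.p2 (t, u)
    obtain ⟨u, hu, e2⟩ := a2.exists_mem_Ico₀ hp x.2
    have : f x = f (t, u) := e1.trans e2
    rw [this]
    exact hx (a := (t, u)) ⟨Ico_subset_Icc_self ht, Ico_subset_Icc_self hu⟩
  have h2 : ∀ᶠ R in nhdsWithin ‖(f x₀).1‖ (Ioi ‖(f x₀).1‖), π * R ^ 2 < c :=
    nhdsWithin_le_nhds ((by fun_prop : Continuous fun R : ℝ => π * R ^ 2).continuousAt.eventually_lt
      continuousAt_const (hc x₀))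
  obtain ⟨R, a1, a2⟩ := (h2.and self_mem_nhdsWithin).exists
  exact ⟨R, (norm_nonneg _).trans_lt a2, a1, fun x => (h1 x).trans_lt a2⟩

theorem main_of (hW : ChartStmt) (h1 : FolStmt) (h2 : NeckStmt) (hG : TrivStmt) (hM : MasStmt)
    (h4 : FibStmt) {f : ℝ × ℝ → E} {lam : ℝ} (hl : 0 < lam) (hf : Tor f) (hm : IsMonotone f lam)
    (hc : ∀ x, π * ‖(f x).1‖ ^ 2 < 4 * lam) :
    HamIso (range f) (clifford lam) ∨ HamIso (range f) (chekanov lam) := by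
  obtain ⟨R0, r0, r1, r2⟩ := hf.bound hc
  obtain ⟨β, e, k, b1, b2, b3, b4⟩ := hW f lam R0 hf hm r2
  obtain ⟨κ, k0, k1⟩ := h2 (2 * lam) e R0 k (by positivity) b2 r0 (by linarith)
  obtain ⟨N1, δ, n0, d0, g1⟩ := hG κ k0
  obtain ⟨N, n1, n2⟩ := k1 N1 δ n0 d0
  obtain ⟨J, K, Θ, c1, c2, c3, c4, c5, c6⟩ := b4 N n1
  obtain ⟨Ψ, P, f1⟩ := h1 _ J K c1
  obtain ⟨p, q, r, s, h, e1, e2, e3, e4⟩ := n2 _ _ K Θ Ψ P (c1.amb 1) c2 c3 c4 c5 f1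
  have hr : 0 < √(2 * lam / π) := by positivity
  have hr' : π * √(2 * lam / π) ^ 2 = 2 * lam := by
    rw [sq_sqrt (by positivity), mul_div_cancel₀ _ pi_ne_zero]
  obtain ⟨Φ, Φ', k', t1, t2, t3, t4⟩ := g1 _ _ K _ Ψ P h _ hr (c1.amb 1) f1 e2 e3 e4
  have t5 := t3.lin e1
  have t6 : ∀ x, Φ (std √(2 * lam / π) x) =
      f (p * (k' x).1 + q * (k' x).2, r * (k' x).1 + s * (k' x).2) := fun x => by
    rw [t4, ← c6, lin]
    push_cast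
    congr 2 <;> ring
  obtain ⟨m1, m2, m3⟩ := hM f lam _ Φ Φ' β _ hf hm hr t1 b1 (fun x => (b3 x).2) t2 t5 t6
  have t7 : Φ '' Ls √(2 * lam / π) = range f := by
    rw [← range_std hr, ← range_comp]
    exact (congrArg range (funext t6)).trans (t5.surj.range_comp f)
  rw [← t7]
  refine h4 lam _ Φ Φ' β hr hr' t1 b1 (fun y hy => ?_) t2 m1 m2 m3
  obtain ⟨x, hx⟩ : Φ y ∈ range f := t7 ▸ mem_image_of_mem Φ hy
  exact hx ▸ b3 x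

end Pool.Agent.Lib.MP_7ed551_gt.Cy
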