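import Pool.Agent.Lib.MP_7ed551_gt.Cy.A.Main
import Pool.Agent.Lib.MP_7ed551_gt.Cy.W.Dich
import Pool.Agent.Lib.MP_7ed551_gt.Cy.W.Mas

/-! Monotone tori which are fibred for a symplectic foliation by planes. -/

open scoped ContDiff
open Set Real
open Complex (I)

noncomputable section

namespace Pool.Agent.Lib.MP_7ed551_gt.Cy

open Pool.Agent.Lib.MP_ccffa6_gt (Form1 dF pb dF_pb dF_apply)

theorem exp_inj {r a b : ℝ} (hr : 0 < r)
    (h : (r : ℂ) * Complex.exp (a * I) = r * Complex.exp (b * I)) : ∃ n : ℤ, b = a + 2 * π * n := by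
  obtain ⟨n, hn⟩ := Complex.exp_eq_exp_iff_exists_int.1
    (mul_left_cancel₀ (Complex.ofReal_ne_zero.2 hr.ne') h).symm
  refine ⟨n, ?_⟩
  have := congrArg Complex.im hn
  simp at this
  linarith

theorem tor_std {r : ℝ} (hr : 0 < r) {Φ Φ' : E → E} (hΦ : Dif Φ Φ')
    (hl : IsLag fun x => Φ (std r x)) : Tor fun x => Φ (std r x) := by
  have dΦ := fun y => (hΦ.sm.differentiable (by simp) y).hasFDerivAt
  have dΨ := fun y => (hΦ.sm'.differentiable (by simp) y).hasFDerivAt
  refine ⟨hΦ.sm.comp (FA.contDiff_std r), fun x => ?_, fun x => ?_, fun x y h => ?_, fun x => ?_, hl⟩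
  · simp [std, add_mul, Complex.exp_add]
  · simp [std, add_mul, Complex.exp_add]
  · have e : std r x = std r y := by rw [← hΦ.left (std r x), h, hΦ.left]
    obtain ⟨m, hm⟩ := exp_inj hr (congrArg Prod.snd e)
    obtain ⟨n, hn⟩ := exp_inj hr (congrArg Prod.fst e)
    exact ⟨m, n, Prod.ext hm hn⟩
  · obtain ⟨d0, d1, d2⟩ := hasFDerivAt_std r x
    have i1 : ∀ v, fderiv ℝ Φ' (Φ (std r x)) (fderiv ℝ Φ (std r x) v) = v := fun v => by
      have := ((dΨ (Φ (std r x))).comp _ (dΦ (std r x))).fderiv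
      rw [show Φ' ∘ Φ = id from funext hΦ.left, fderiv_id] at this
      exact (DFunLike.congr_fun this v).symm
    rw [show (fun x => Φ (std r x)) = Φ ∘ std r from rfl, ((dΦ _).comp x d0.hasFDerivAt).fderiv]
    refine (Function.LeftInverse.injective i1).comp
      ((injective_iff_map_eq_zero (fderiv ℝ (std r) x)).2 fun v hv => ?_)
    have e : v = v.1 • ((1, 0) : ℝ × ℝ) + v.2 • (0, 1) := by simp
    rw [e, map_add, map_smul, map_smul, d1, d2] at hv
    have h1 := congrArg Prod.fst hv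
    have h2 := congrArg Prod.snd hv
    simp [std, hr.ne'] at h1 h2
    exact Prod.ext h2 h1

theorem fibred {lam r : ℝ} (hr : 0 < r) (hl : π * r ^ 2 = 2 * lam) {Φ Φ' : E → E} (hΦ : Dif Φ Φ')
    (hp : ∀ x, 0 < om (fderiv ℝ Φ x (1, 0)) (fderiv ℝ Φ x (I, 0)))
    (lag : IsLag fun x => Φ (std r x)) (hm : IsMonotone (fun x => Φ (std r x)) lam) :
    HamIso (range fun x => Φ (std r x)) (clifford lam) ∨
      HamIso (range fun x => Φ (std r x)) (chekanov lam) := by
  have s0 : Small 0 := ⟨contDiff_const, HasCompactSupport.zero, fun x u v => by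
    simp only [dF_apply]
    simp
    positivity⟩
  have d0 : ∀ x, dF (0 : Form1 E) x = 0 := fun x => by
    ext <;> simp [dF_apply]
  have fp : FibPos (pb Φ fun x => lam0 x + (0 : Form1 E) x) := fun x => by
    simp only [Pi.zero_apply, add_zero]
    rw [dF_pb (hΦ.sm.contDiffAt.of_le (WithTop.coe_le_coe.2 (le_top (a := (2 : ℕ∞)))))
      (contDiff_lam0.differentiable (by simp) _), dF_lam0]
    exact hp x
  obtain ⟨m1, m2, m3⟩ := masStmt _ lam r Φ Φ' 0 id (tor_std hr hΦ lag) hm hr hΦ s0 (fun _ => d0 _) fp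
    ⟨contDiff_id, ⟨1, 0, fun x => by simp⟩, ⟨0, 1, fun x => by simp⟩, Function.surjective_id⟩
    fun _ => rfl
  rw [show (fun x => Φ (std r x)) = Φ ∘ std r from rfl, range_comp, range_std hr]
  exact FA.fib_of dichStmt lam r Φ Φ' 0 hr hl hΦ s0 (fun y _ => ⟨rfl, d0 _⟩) fp m1 m2 m3

end Pool.Agent.Lib.MP_7ed551_gt.Cy
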