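import Pool.Agent.Lib.MP_7ed551_gt.Cy.A.Main
import Pool.Agent.Lib.MP_7ed551_gt.Cy.C.Top
import Pool.Agent.Lib.MP_7ed551_gt.Cy.G.Main
import Pool.Agent.Lib.MP_7ed551_gt.Cy.N.Main
import Pool.Agent.Lib.MP_7ed551_gt.Cy.W.Chart
import Pool.Agent.Lib.MP_7ed551_gt.Cy.W.Dich
import Pool.Agent.Lib.MP_7ed551_gt.Cy.W.Mas

/-! Monotone tori in a thin cylinder: the assembly. -/

open Set Real

namespace Pool.Agent.Lib.MP_7ed551_gt.Cy

theorem main {f : ℝ × ℝ → E} {lam : ℝ} (hl : 0 < lam) (hf : Tor f) (hm : IsMonotone f lam)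
    (hc : ∀ x, π * ‖(f x).1‖ ^ 2 < 4 * lam) :
    HamIso (range f) (clifford lam) ∨ HamIso (range f) (chekanov lam) :=
  main_of chartStmt folStmt neck (triv_of folStmt) masStmt (FA.fib_of dichStmt) hl hf hm hc

end Pool.Agent.Lib.MP_7ed551_gt.Cy
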